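import Pool.Agent.L0h45.AV.Stm

/-! Project AV, module LPN: the tuples modulo `p ^ 2` with `x` divisible by `p` -/

set_option autoImplicit false
set_option linter.all false

open Finset

namespace Pool.Agent.L0h63.AV

open Pool.Agent.N874.PP (Tup chA chB)
open Pool.Agent.N922.PQ (dsc)
open Pool.Agent.L0h45.AV (Bo)

namespace LPNm

theorem eqd {n u v : ℤ} (hu : 0 ≤ u) (hu' : u < n) (hv : 0 ≤ v) (hv' : v < n) (h : n ∣ u - v) :
    u = v := by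
  have := Int.eq_zero_of_abs_lt_dvd h (by rw [abs_lt]; constructor <;> linarith)
  linarith

theorem cop {P u : ℤ} (hP : Prime P) (h : ¬ P ∣ u) : IsCoprime (P ^ 2) u :=
  ((Prime.coprime_iff_not_dvd hP).2 h).pow_left

theorem canc {P u v : ℤ} (hP : Prime P) (h : ¬ P ∣ u) (hd : P ^ 2 ∣ u * v) : P ^ 2 ∣ v :=
  (cop hP h).dvd_of_dvd_mul_left hd

/-- the common properties of the two tuples with `p ∣ x` -/
theorem inj1 {P : ℤ} (hP : Prime P) (h2 : ¬ P ∣ 2) {a b : ℤ} {x y c z w z' w' : ℤ}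
    (hx : P ∣ x) (hy : ¬ P ∣ y)
    (hA : P ^ 2 ∣ chA ⟨x, y, c, z, w⟩ - a) (hA' : P ^ 2 ∣ chA ⟨x, y, c, z', w'⟩ - a)
    (hB : P ^ 2 ∣ chB ⟨x, y, c, z, w⟩ - b) (hB' : P ^ 2 ∣ chB ⟨x, y, c, z', w'⟩ - b) :
    P ^ 2 ∣ z - z' ∧ P ^ 2 ∣ w - w' := by
  obtain ⟨m, rfl⟩ := hx
  have e1 : P ^ 2 ∣ 2 * y * (z - z') + P * m * (w - w') := by
    have h := dvd_sub hA' hA
    have h3 : chA (R := ℤ) ⟨P * m, y, c, z', w'⟩ - a - (chA ⟨P * m, y, c, z, w⟩ - a) =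
        2 * y * (z - z') + P * m * (w - w') := by
      unfold chA
      ring
    rwa [h3] at h
  have e2 : P ^ 2 ∣ 2 * c * y * (z - z') - P * m * (z ^ 2 - z' ^ 2) - y ^ 2 * (w - w') -
      2 * c * (P * m) * (w - w') := by
    have h := dvd_sub hB hB'
    have h3 : chB (R := ℤ) ⟨P * m, y, c, z, w⟩ - b - (chB ⟨P * m, y, c, z', w'⟩ - b) =
        2 * c * y * (z - z') - P * m * (z ^ 2 - z' ^ 2) - y ^ 2 * (w - w') -
          2 * c * (P * m) * (w - w') := by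
      unfold chB
      ring
    rwa [h3] at h
  have hPz : P ∣ z - z' := by
    have h3 : P ∣ 2 * y * (z - z') := by
      have h4 : P ∣ 2 * y * (z - z') + P * m * (w - w') := (dvd_pow_self P two_ne_zero).trans e1
      exact (dvd_add_left (Dvd.intro _ (by ring : P * (m * (w - w')) = P * m * (w - w')))).1 h4
    rcases hP.dvd_or_dvd h3 with h4 | h4
    · rcases hP.dvd_or_dvd h4 with h5 | h5
      · exact absurd h5 h2
      · exact absurd h5 hy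
    · exact h4
  obtain ⟨k, hk⟩ := hPz
  have e3 : P ^ 2 ∣ (y ^ 2 + 3 * c * (P * m)) * (w - w') := by
    have h3 : P ^ 2 ∣ P * m * (z ^ 2 - z' ^ 2) := by
      refine ⟨m * k * (z + z'), ?_⟩
      have : z ^ 2 - z' ^ 2 = (z - z') * (z + z') := by ring
      rw [this, hk]
      ring
    have h4 := dvd_sub (dvd_sub (e1.mul_left c) e2) h3
    have h5 : c * (2 * y * (z - z') + P * m * (w - w')) -
        (2 * c * y * (z - z') - P * m * (z ^ 2 - z' ^ 2) - y ^ 2 * (w - w') -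
          2 * c * (P * m) * (w - w')) - P * m * (z ^ 2 - z' ^ 2) =
        (y ^ 2 + 3 * c * (P * m)) * (w - w') := by ring
    rwa [h5] at h4
  have hw : P ^ 2 ∣ w - w' := by
    refine canc hP (fun h => ?_) e3
    have h4 : P ∣ y ^ 2 := by
      refine (dvd_add_left (Dvd.intro _ (by ring : P * (3 * c * m) = 3 * c * (P * m)))).1 h
    exact hy (hP.dvd_of_dvd_pow h4)
  refine ⟨?_, hw⟩
  have e4 : P ^ 2 ∣ 2 * y * (z - z') := (dvd_add_left (hw.mul_left _)).1 e1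
  refine canc hP (fun h => ?_) e4
  rcases hP.dvd_or_dvd h with h5 | h5
  · exact h2 h5
  · exact hy h5

theorem did (a b c : ℤ) : dsc a b = 4 * (3 * c ^ 2 + a) ^ 3 - 9 * c ^ 2 * (3 * c ^ 2 + a) ^ 2 +
    27 * (c ^ 3 + a * c + b) ^ 2 + 108 * c ^ 3 * (c ^ 3 + a * c + b) -
    54 * c * (c ^ 3 + a * c + b) * (3 * c ^ 2 + a) := by
  unfold dsc
  ring

/-- `p ∣ x`, `p ∣ y`: the values of the characteristic polynomial and its derivative at `c` -/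
theorem fg {P : ℤ} {a b : ℤ} {x y c z w : ℤ} (hx : P ∣ x) (hy : P ∣ y)
    (hA : P ^ 2 ∣ chA ⟨x, y, c, z, w⟩ - a) (hB : P ^ 2 ∣ chB ⟨x, y, c, z, w⟩ - b) :
    P ∣ 3 * c ^ 2 + a ∧ P ^ 2 ∣ c ^ 3 + a * c + b + x * (z ^ 2 + 3 * c * w) := by
  obtain ⟨m, rfl⟩ := hx
  obtain ⟨n, rfl⟩ := hy
  obtain ⟨u, hu⟩ := hA
  obtain ⟨v, hv⟩ := hB
  unfold chA at hu
  unfold chB at hv
  dsimp only at hu hv
  refine ⟨⟨-(2 * n * z + m * w + P * u), by linear_combination -hu⟩,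
    ⟨-(w * n ^ 2) - c * u - v, by linear_combination -c * hu - hv⟩⟩

theorem inj2 {P : ℤ} (hP : Prime P) (h2 : ¬ P ∣ 2) (h3 : ¬ P ∣ 3) {a b : ℤ}
    (hd : ¬ P ^ 2 ∣ dsc a b) {x y c z w : ℤ} (hx : P ∣ x) (hy : P ∣ y)
    (hA : P ^ 2 ∣ chA ⟨x, y, c, z, w⟩ - a) (hB : P ^ 2 ∣ chB ⟨x, y, c, z, w⟩ - b) :
    P ∣ dsc a b ∧ ¬ P ∣ c ∧ ¬ P ^ 2 ∣ x := by
  obtain ⟨⟨g, hg⟩, hf⟩ := fg hx hy hA hB
  have hf1 : P ∣ c ^ 3 + a * c + b := by
    have h4 := (dvd_pow_self P two_ne_zero).trans hf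
    exact (dvd_add_left (hx.mul_right _)).1 h4
  refine ⟨?_, fun hc => ?_, fun hx2 => ?_⟩
  · obtain ⟨f, hf'⟩ := hf1
    rw [did a b c, hg, hf']
    exact ⟨4 * P ^ 2 * g ^ 3 - 9 * c ^ 2 * P * g ^ 2 + 27 * P * f ^ 2 + 108 * c ^ 3 * f -
      54 * c * f * P * g, by ring⟩
  · obtain ⟨f, hf'⟩ := hf1
    obtain ⟨d, hd'⟩ := hc
    apply hd
    rw [did a b c, hg, hf']
    exact ⟨4 * P * g ^ 3 - 9 * c ^ 2 * g ^ 2 + 27 * f ^ 2 + 108 * c ^ 2 * d * f -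
      54 * c * f * g, by rw [hd']; ring⟩
  · have hf2 : P ^ 2 ∣ c ^ 3 + a * c + b := (dvd_add_left (hx2.mul_right _)).1 hf
    obtain ⟨f, hf'⟩ := hf2
    apply hd
    rw [did a b c, hg, hf']
    exact ⟨4 * P * g ^ 3 - 9 * c ^ 2 * g ^ 2 + 27 * P ^ 2 * f ^ 2 + 108 * c ^ 3 * f -
      54 * c * f * P * g, by ring⟩

theorem inj3 {P : ℤ} (hP : Prime P) (h2 : ¬ P ∣ 2) (h3 : ¬ P ∣ 3) {a b : ℤ}
    (hd : ¬ P ^ 2 ∣ dsc a b) {x y c z w c' w' : ℤ} (hx : P ∣ x) (hy : P ∣ y)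
    (hA : P ^ 2 ∣ chA ⟨x, y, c, z, w⟩ - a) (hB : P ^ 2 ∣ chB ⟨x, y, c, z, w⟩ - b)
    (hA' : P ^ 2 ∣ chA ⟨x, y, c', z, w'⟩ - a) (hB' : P ^ 2 ∣ chB ⟨x, y, c', z, w'⟩ - b) :
    P ∣ w - w' ∧ (w = w' → P ^ 2 ∣ c - c') := by
  obtain ⟨-, hc, hx2⟩ := inj2 hP h2 h3 hd hx hy hA hB
  obtain ⟨-, hc', -⟩ := inj2 hP h2 h3 hd hx hy hA' hB'
  obtain ⟨⟨g, hg⟩, hf⟩ := fg hx hy hA hB
  obtain ⟨⟨g', hg'⟩, hf'⟩ := fg hx hy hA' hB'
  have hP0 : P ≠ 0 := hP.ne_zero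
  -- `c` and `c'` are congruent
  have hcc : P ∣ c - c' := by
    obtain ⟨f, hf1⟩ : P ∣ c ^ 3 + a * c + b :=
      (dvd_add_left (hx.mul_right _)).1 ((dvd_pow_self P two_ne_zero).trans hf)
    obtain ⟨f', hf1'⟩ : P ∣ c' ^ 3 + a * c' + b :=
      (dvd_add_left (hx.mul_right _)).1 ((dvd_pow_self P two_ne_zero).trans hf')
    have h4 : P ∣ 3 * (c ^ 2 - c' ^ 2) := ⟨g - g', by linear_combination hg - hg'⟩
    have h5 : P ∣ 2 * (c ^ 3 - c' ^ 3) := ⟨-f + f' + c * g - c' * g', by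
      linear_combination -hf1 + hf1' + c * hg - c' * hg'⟩
    have h6 : P ∣ c ^ 2 - c' ^ 2 := (hP.dvd_or_dvd h4).resolve_left h3
    have h7 : P ∣ c ^ 3 - c' ^ 3 := (hP.dvd_or_dvd h5).resolve_left h2
    have h8 : P ∣ c' ^ 2 * (c - c') := by
      have := dvd_sub h7 (h6.mul_left c)
      have e : c ^ 3 - c' ^ 3 - c * (c ^ 2 - c' ^ 2) = c' ^ 2 * (c - c') := by ring
      rwa [e] at this
    exact (hP.dvd_or_dvd h8).resolve_left fun h => hc' (hP.dvd_of_dvd_pow h)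
  obtain ⟨k, hk⟩ := hcc
  constructor
  · -- the values of the cubic polynomial are congruent modulo `p ^ 2`
    have h4 : P ^ 2 ∣ (c ^ 3 + a * c + b) - (c' ^ 3 + a * c' + b) := by
      have e : (c ^ 3 + a * c + b) - (c' ^ 3 + a * c' + b) =
          (c - c') * ((3 * c ^ 2 + a) - (c - c') * (c' + 2 * c)) := by ring
      rw [e, hg, hk]
      exact ⟨k * (g - k * (c' + 2 * c)), by ring⟩
    obtain ⟨m, hm⟩ := hx
    have h5 : P ^ 2 ∣ x * (z ^ 2 + 3 * c * w) - x * (z ^ 2 + 3 * c' * w') := by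
      have := dvd_sub (dvd_sub hf hf') h4
      have e : c ^ 3 + a * c + b + x * (z ^ 2 + 3 * c * w) -
          (c' ^ 3 + a * c' + b + x * (z ^ 2 + 3 * c' * w')) -
          ((c ^ 3 + a * c + b) - (c' ^ 3 + a * c' + b)) =
          x * (z ^ 2 + 3 * c * w) - x * (z ^ 2 + 3 * c' * w') := by ring
      rwa [e] at this
    have h6 : P ^ 2 ∣ P * (m * (3 * (c * (w - w')))) := by
      have e : P * (m * (3 * (c * (w - w')))) =
          x * (z ^ 2 + 3 * c * w) - x * (z ^ 2 + 3 * c' * w') - P ^ 2 * (3 * m * k * w') := by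
        rw [hm]
        linear_combination (-3 * P * m * w') * hk
      rw [e]
      exact dvd_sub h5 (dvd_mul_right _ _)
    have h7 : P ∣ m * (3 * (c * (w - w'))) := by
      rw [sq] at h6
      exact (mul_dvd_mul_iff_left hP0).1 h6
    have hm' : ¬ P ∣ m := fun ⟨r, hr⟩ => hx2 ⟨r, by rw [hm, hr]; ring⟩
    have h8 := (hP.dvd_or_dvd h7).resolve_left hm'
    have h9 := (hP.dvd_or_dvd h8).resolve_left h3
    exact (hP.dvd_or_dvd h9).resolve_left hc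
  · rintro rfl
    have h4 : P ^ 2 ∣ 3 * (c + c') * (c - c') := by
      have h := dvd_sub hA' hA
      have h5 : chA (R := ℤ) ⟨x, y, c', z, w⟩ - a - (chA ⟨x, y, c, z, w⟩ - a) =
          3 * (c + c') * (c - c') := by
        unfold chA
        ring
      rwa [h5] at h
    refine canc hP (fun h => ?_) h4
    have h5 := (hP.dvd_or_dvd h).resolve_left h3
    have h6 : P ∣ 2 * c := by
      have := dvd_add h5 (Dvd.intro k hk.symm)
      have e : c + c' + (c - c') = 2 * c := by ring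
      rwa [e] at this
    exact hc ((hP.dvd_or_dvd h6).resolve_left h2)

theorem card1 (p : ℕ) (hp : 1 ≤ p) :
    (((Ico (0 : ℤ) p) ×ˢ ((Ico (0 : ℤ) p) ×ˢ ((Ico (1 : ℤ) p) ×ˢ (Ico (0 : ℤ) ((p : ℤ) ^ 2))))) :
      Finset (ℤ × ℤ × ℤ × ℤ)).card = p ^ 4 * (p - 1) := by
  have h1 : (Ico (0 : ℤ) p).card = p := by rw [Int.card_Ico]; simp
  have h2 : (Ico (1 : ℤ) p).card = p - 1 := by rw [Int.card_Ico]; omega
  have h3 : (Ico (0 : ℤ) ((p : ℤ) ^ 2)).card = p ^ 2 := by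
    rw [Int.card_Ico]
    have : (p : ℤ) ^ 2 - 0 = ((p ^ 2 : ℕ) : ℤ) := by push_cast; ring
    rw [this, Int.toNat_natCast]
  rw [card_product, card_product, card_product, h1, h2, h3]
  ring

theorem card2 (p : ℕ) (hp : 1 ≤ p) :
    (((Ico (1 : ℤ) p) ×ˢ ((Ico (0 : ℤ) p) ×ˢ ((Ico (0 : ℤ) ((p : ℤ) ^ 2)) ×ˢ (Ico (0 : ℤ) p)))) :
      Finset (ℤ × ℤ × ℤ × ℤ)).card = p ^ 4 * (p - 1) := by
  have h1 : (Ico (0 : ℤ) p).card = p := by rw [Int.card_Ico]; simp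
  have h2 : (Ico (1 : ℤ) p).card = p - 1 := by rw [Int.card_Ico]; omega
  have h3 : (Ico (0 : ℤ) ((p : ℤ) ^ 2)).card = p ^ 2 := by
    rw [Int.card_Ico]
    have : (p : ℤ) ^ 2 - 0 = ((p ^ 2 : ℕ) : ℤ) := by push_cast; ring
    rw [this, Int.toNat_natCast]
  rw [card_product, card_product, card_product, h1, h2, h3]
  ring

/-- the quotient by `p` of a number in `[0, p ^ 2)` -/
theorem quo {P u : ℤ} (hP : 0 < P) (h0 : 0 ≤ u) (h1 : u < P ^ 2) : 0 ≤ u / P ∧ u / P < P :=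
  ⟨Int.ediv_nonneg h0 hP.le, Int.ediv_lt_of_lt_mul hP (by rw [← sq]; exact h1)⟩

theorem modp {P u : ℤ} (hP : 0 < P) (h : ¬ P ∣ u) : 1 ≤ u % P ∧ u % P < P := by
  refine ⟨?_, Int.emod_lt_of_pos u hP⟩
  have h1 := Int.emod_nonneg u hP.ne'
  have h2 : u % P ≠ 0 := fun h' => h (Int.dvd_of_emod_eq_zero h')
  omega

theorem eq_of_div_mod {P u v : ℤ} (h1 : u / P = v / P) (h2 : u % P = v % P) : u = v := by
  rw [← Int.mul_ediv_add_emod u P, ← Int.mul_ediv_add_emod v P, h1, h2]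

end LPNm

open LPNm in
/-- LPN: the tuples modulo `p ^ 2` with `x` divisible by `p` -/
theorem t_LPN : Pool.Agent.L0h45.AV.S_LPN := by
  intro p hp h5 a b hd
  have hP : Prime (p : ℤ) := Nat.prime_iff_prime_int.1 hp
  have hP0 : (0 : ℤ) < p := by exact_mod_cast hp.pos
  have h2 : ¬ (p : ℤ) ∣ 2 := fun h => by
    have := Int.le_of_dvd (by norm_num) h
    have : p ≤ 2 := by exact_mod_cast this
    omega
  have h3 : ¬ (p : ℤ) ∣ 3 := fun h => by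
    have := Int.le_of_dvd (by norm_num) h
    have : p ≤ 3 := by exact_mod_cast this
    omega
  obtain ⟨S1, hS1⟩ : ∃ S1 : Set (Tup ℤ), S1 = {B | (B ∈ Bo (p ^ 2) ∧ (p : ℤ) ∣ B.x ∧
    (p : ℤ) ^ 2 ∣ chA B - a ∧ (p : ℤ) ^ 2 ∣ chB B - b) ∧ ¬ (p : ℤ) ∣ B.y} := ⟨_, rfl⟩
  obtain ⟨S2, hS2⟩ : ∃ S2 : Set (Tup ℤ), S2 = {B | (B ∈ Bo (p ^ 2) ∧ (p : ℤ) ∣ B.x ∧
    (p : ℤ) ^ 2 ∣ chA B - a ∧ (p : ℤ) ^ 2 ∣ chB B - b) ∧ (p : ℤ) ∣ B.y} := ⟨_, rfl⟩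
  have hun : {B : Tup ℤ | B ∈ Bo (p ^ 2) ∧ (p : ℤ) ∣ B.x ∧ (p : ℤ) ^ 2 ∣ chA B - a ∧
      (p : ℤ) ^ 2 ∣ chB B - b} = S1 ∪ S2 := by
    ext B
    rw [hS1, hS2]
    simp only [Set.mem_setOf_eq, Set.mem_union]
    tauto
  have hbo : ∀ B : Tup ℤ, B ∈ Bo (p ^ 2) → (0 ≤ B.x ∧ B.x < (p : ℤ) ^ 2) ∧
      (0 ≤ B.y ∧ B.y < (p : ℤ) ^ 2) ∧ (0 ≤ B.c ∧ B.c < (p : ℤ) ^ 2) ∧
      (0 ≤ B.z ∧ B.z < (p : ℤ) ^ 2) ∧ (0 ≤ B.w ∧ B.w < (p : ℤ) ^ 2) := by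
    intro B hB
    unfold Bo at hB
    rw [Set.mem_setOf_eq] at hB
    push_cast at hB
    obtain ⟨q1, q2, q3, q4, q5, q6, q7, q8, q9, q10⟩ := hB
    exact ⟨⟨q1, q2⟩, ⟨q3, q4⟩, ⟨q5, q6⟩, ⟨q7, q8⟩, ⟨q9, q10⟩⟩
  have hc1 : S1.ncard ≤ p ^ 4 * (p - 1) := by
    rw [← card1 p hp.pos, ← Set.ncard_coe_finset]
    refine Set.ncard_le_ncard_of_injOn (fun B : Tup ℤ => (B.x / p, B.y / p, B.y % p, B.c)) ?_ ?_
      (Finset.finite_toSet _)
    · intro B hB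
      rw [hS1] at hB
      obtain ⟨⟨hB1, hx, hA, hB'⟩, hy⟩ := hB
      obtain ⟨q1, q2, q3, q4, q5⟩ := hbo B hB1
      have e1 := quo hP0 q1.1 q1.2
      have e2 := quo hP0 q2.1 q2.2
      have e3 := modp hP0 hy
      rw [mem_coe, mem_product, mem_product, mem_product, mem_Ico, mem_Ico, mem_Ico, mem_Ico]
      exact ⟨e1, e2, e3, q3⟩
    · rintro ⟨x, y, c, z, w⟩ hB ⟨x', y', c', z', w'⟩ hB' he
      rw [hS1] at hB hB'
      obtain ⟨⟨hB1, hx, hA, hBB⟩, hy⟩ := hB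
      obtain ⟨⟨hB1', hx', hA', hBB'⟩, hy'⟩ := hB'
      obtain ⟨q1, q2, q3, q4, q5⟩ := hbo _ hB1
      obtain ⟨q1', q2', q3', q4', q5'⟩ := hbo _ hB1'
      simp only [Prod.mk.injEq] at he hx hy hx' hy' q1 q2 q3 q4 q5 q1' q2' q3' q4' q5'
      obtain ⟨e1, e2, e3, e4⟩ := he
      have f1 : x = x' := by
        rw [← Int.mul_ediv_cancel' hx, ← Int.mul_ediv_cancel' hx', e1]
      have f2 : y = y' := eq_of_div_mod e2 e3
      subst f1 f2 e4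
      obtain ⟨r1, r2⟩ := inj1 hP h2 hx hy hA hA' hBB hBB'
      rw [eqd q4.1 q4.2 q4'.1 q4'.2 r1, eqd q5.1 q5.2 q5'.1 q5'.2 r2]
  have hc2 : S2.ncard ≤ p ^ 4 * (p - 1) := by
    rw [← card2 p hp.pos, ← Set.ncard_coe_finset]
    refine Set.ncard_le_ncard_of_injOn (fun B : Tup ℤ => (B.x / p, B.y / p, B.z, B.w / p)) ?_ ?_
      (Finset.finite_toSet _)
    · intro B hB
      rw [hS2] at hB
      obtain ⟨⟨hB1, hx, hA, hB'⟩, hy⟩ := hB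
      obtain ⟨q1, q2, q3, q4, q5⟩ := hbo B hB1
      have e1 := quo hP0 q1.1 q1.2
      have e2 := quo hP0 q2.1 q2.2
      have e3 := quo hP0 q5.1 q5.2
      have e4 := (inj2 hP h2 h3 hd hx hy hA hB').2.2
      have e5 : B.x / p ≠ 0 := by
        intro h
        apply e4
        have := Int.mul_ediv_cancel' hx
        rw [h, mul_zero] at this
        rw [← this]
        exact dvd_zero _
      rw [mem_coe, mem_product, mem_product, mem_product, mem_Ico, mem_Ico, mem_Ico, mem_Ico]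
      refine ⟨⟨?_, e1.2⟩, e2, q4, e3⟩
      have := e1.1
      dsimp only
      omega
    · rintro ⟨x, y, c, z, w⟩ hB ⟨x', y', c', z', w'⟩ hB' he
      rw [hS2] at hB hB'
      obtain ⟨⟨hB1, hx, hA, hBB⟩, hy⟩ := hB
      obtain ⟨⟨hB1', hx', hA', hBB'⟩, hy'⟩ := hB'
      obtain ⟨q1, q2, q3, q4, q5⟩ := hbo _ hB1
      obtain ⟨q1', q2', q3', q4', q5'⟩ := hbo _ hB1'
      simp only [Prod.mk.injEq] at he hx hy hx' hy' q1 q2 q3 q4 q5 q1' q2' q3' q4' q5'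
      obtain ⟨e1, e2, e3, e4⟩ := he
      have f1 : x = x' := by
        rw [← Int.mul_ediv_cancel' hx, ← Int.mul_ediv_cancel' hx', e1]
      have f2 : y = y' := by
        rw [← Int.mul_ediv_cancel' hy, ← Int.mul_ediv_cancel' hy', e2]
      subst f1 f2 e3
      obtain ⟨r1, r2⟩ := inj3 hP h2 h3 hd hx hy hA hBB hA' hBB'
      have f3 : w = w' := eq_of_div_mod e4 (Int.emod_emod_of_dvd w (dvd_refl _) ▸
        (Int.emod_emod_of_dvd w (dvd_refl _)).symm ▸ (Int.emod_eq_emod_iff_emod_sub_eq_zero.2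
          (Int.emod_eq_zero_of_dvd r1)))
      subst f3
      rw [eqd q3.1 q3.2 q3'.1 q3'.2 (r2 rfl)]
  have hc3 : ¬ (p : ℤ) ∣ dsc a b → S2 = ∅ := by
    intro hnd
    rw [Set.eq_empty_iff_forall_notMem]
    intro B hB
    rw [hS2] at hB
    obtain ⟨⟨hB1, hx, hA, hB'⟩, hy⟩ := hB
    exact hnd (inj2 hP h2 h3 hd hx hy hA hB').1
  rw [hun]
  refine (Set.ncard_union_le S1 S2).trans ?_
  split_ifs with h
  · linarith
  · rw [hc3 h, Set.ncard_empty]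
    linarith

end Pool.Agent.L0h63.AV
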